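import Pool.Agent.Lib_helper93.Ins.Stoll

set_option autoImplicit false

namespace Pool.Agent.Results.MP_d290f7_gt.NonseparableManifold

/-- A complex-analytic atlas of dimension `n` on the topological space `M`: a family of charts
`φ i : U i → ℂⁿ`, where the sets `U i` are open and cover `M`, each `φ i` is a homeomorphism of
`U i` onto an open subset of `ℂⁿ`, and each transition map `φ j ∘ (φ i)⁻¹` is holomorphic (complex
differentiable) on its domain `φ i (U i ∩ U j)`, an open subset of `ℂⁿ`. -/
structure ComplexAtlas (n : ℕ) (M : Type) [TopologicalSpace M] where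
  /-- the index set of the atlas -/
  J : Type
  /-- the domains of the charts -/
  U : J → Set M
  /-- the charts -/
  φ : (i : J) → U i → (Fin n → ℂ)
  isOpen : ∀ i, IsOpen (U i)
  cover : ∀ m : M, ∃ i, m ∈ U i
  homeo : ∀ i, Topology.IsOpenEmbedding (φ i)
  holomorphic : ∀ i j, ∃ g : (Fin n → ℂ) → (Fin n → ℂ),
    DifferentiableOn ℂ g (φ i '' {m | (m : M) ∈ U j}) ∧
      ∀ (m : M) (hi : m ∈ U i) (hj : m ∈ U j), g (φ i ⟨m, hi⟩) = φ j ⟨m, hj⟩

/-- **Nonseparable complex-analytic manifolds exist in every dimension `n ≥ 2`** (a positive answer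
to the question of Stoll; `n ≥ 2` is necessary by the theorem of Rado).

For every `n ≥ 2` there is a connected Hausdorff complex-analytic manifold `M` of complex dimension
`n` which has no countable dense subset. Moreover the charts of `M` map onto all of `ℂⁿ`, their
domains form a chain under inclusion, and every countable subset of `M` is contained in the domain
of a chart which is not dense in `M`. -/
theorem result (n : ℕ) (hn : 2 ≤ n) :
    ∃ (M : Type) (_ : TopologicalSpace M) (𝒜 : ComplexAtlas n M),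
      T2Space M ∧ ConnectedSpace M ∧
      (¬ ∃ A : Set M, A.Countable ∧ Dense A) ∧
      (∀ i, Function.Surjective (𝒜.φ i)) ∧
      (∀ i j, 𝒜.U i ⊆ 𝒜.U j ∨ 𝒜.U j ⊆ 𝒜.U i) ∧
      ∀ A : Set M, A.Countable → ∃ i, A ⊆ 𝒜.U i ∧ ¬ Dense (𝒜.U i) := by
  obtain ⟨M, hM, J, U, φ, ht2, hconn, hopen, hcov, hhomeo, hhol, hchain, hcount⟩ :=
    Pool.Agent.Lib_helper93.stoll n hn
  refine ⟨M, hM, ⟨J, U, φ, hopen, ?_, fun i => (hhomeo i).isOpenEmbedding, hhol⟩, ht2, hconn, ?_,
    fun i => (hhomeo i).surjective, hchain, hcount⟩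
  · intro m
    exact Set.mem_iUnion.1 (by rw [hcov]; exact Set.mem_univ m)
  · rintro ⟨A, hA, hd⟩
    obtain ⟨i, hi, hi2⟩ := hcount A hA
    exact hi2 (hd.mono hi)

end Pool.Agent.Results.MP_d290f7_gt.NonseparableManifold
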